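import Pool.Agent.H61.AR.Targets

/-!
# Row PSN of the board `arq_modules`: the Poisson integral
-/

namespace Pool.Agent.H11.AR

open MeasureTheory Metric Set Complex
open Pool.Agent.H61.AR

/-- the Poisson kernel at the point `w`, on the unit circle -/
theorem ker_eq (a b₁ b₂ D θ : ℝ) (hD : 0 < D) (ha : 0 < a) (hDa : D ^ 2 = a ^ 2 - b₁ ^ 2 - b₂ ^ 2)
    (hlt : 0 < a - b₁ * Real.cos θ - b₂ * Real.sin θ) :
    (‖circleMap 0 1 θ - 0‖ ^ 2 - ‖(⟨b₁ / (a + D), b₂ / (a + D)⟩ : ℂ) - 0‖ ^ 2) /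
        ‖(circleMap 0 1 θ - 0) - ((⟨b₁ / (a + D), b₂ / (a + D)⟩ : ℂ) - 0)‖ ^ 2 =
      D / (a - b₁ * Real.cos θ - b₂ * Real.sin θ) := by
  have haD : 0 < a + D := by linarith
  have hre : (circleMap 0 1 θ).re = Real.cos θ := by
    simp [circleMap, Complex.exp_ofReal_mul_I_re]
  have him : (circleMap 0 1 θ).im = Real.sin θ := by
    simp [circleMap, Complex.exp_ofReal_mul_I_im]
  have hcs : Real.sin θ ^ 2 + Real.cos θ ^ 2 = 1 := Real.sin_sq_add_cos_sq θ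
  rw [sub_zero, sub_zero, ← Complex.normSq_eq_norm_sq, ← Complex.normSq_eq_norm_sq,
    ← Complex.normSq_eq_norm_sq, Complex.normSq_apply, Complex.normSq_apply,
    Complex.normSq_apply, Complex.sub_re, Complex.sub_im, hre, him]
  have h1 : Real.cos θ * Real.cos θ + Real.sin θ * Real.sin θ -
      (b₁ / (a + D) * (b₁ / (a + D)) + b₂ / (a + D) * (b₂ / (a + D))) = 2 * D / (a + D) := by
    have : b₁ / (a + D) * (b₁ / (a + D)) + b₂ / (a + D) * (b₂ / (a + D)) =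
        (b₁ ^ 2 + b₂ ^ 2) / (a + D) ^ 2 := by
      field_simp
    rw [this, show Real.cos θ * Real.cos θ + Real.sin θ * Real.sin θ = 1 by nlinarith [hcs],
      show b₁ ^ 2 + b₂ ^ 2 = a ^ 2 - D ^ 2 by linarith, eq_div_iff haD.ne']
    field_simp
    ring
  have h2 : (Real.cos θ - b₁ / (a + D)) * (Real.cos θ - b₁ / (a + D)) +
      (Real.sin θ - b₂ / (a + D)) * (Real.sin θ - b₂ / (a + D)) =
      2 * (a - b₁ * Real.cos θ - b₂ * Real.sin θ) / (a + D) := by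
    have e1 : (Real.cos θ - b₁ / (a + D)) * (Real.cos θ - b₁ / (a + D)) +
        (Real.sin θ - b₂ / (a + D)) * (Real.sin θ - b₂ / (a + D)) =
        (Real.sin θ ^ 2 + Real.cos θ ^ 2) -
          2 * (b₁ * Real.cos θ + b₂ * Real.sin θ) / (a + D) +
          (b₁ ^ 2 + b₂ ^ 2) / (a + D) ^ 2 := by
      field_simp
      ring
    rw [e1, hcs, show b₁ ^ 2 + b₂ ^ 2 = a ^ 2 - D ^ 2 by linarith]
    field_simp
    ring
  rw [h1, h2]
  field_simp

theorem pf_PSN : T_PSN := by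
  intro a b₁ b₂ ha hb
  set D := Real.sqrt (a ^ 2 - b₁ ^ 2 - b₂ ^ 2) with hDdef
  have hpos : 0 < a ^ 2 - b₁ ^ 2 - b₂ ^ 2 := by linarith
  have hD : 0 < D := Real.sqrt_pos.2 hpos
  have hD2 : D ^ 2 = a ^ 2 - b₁ ^ 2 - b₂ ^ 2 := Real.sq_sqrt hpos.le
  have haD : 0 < a + D := by linarith
  have hlt : ∀ θ : ℝ, 0 < a - b₁ * Real.cos θ - b₂ * Real.sin θ := by
    intro θ
    have hcs : Real.sin θ ^ 2 + Real.cos θ ^ 2 = 1 := Real.sin_sq_add_cos_sq θ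
    have h1 : (b₁ * Real.cos θ + b₂ * Real.sin θ) ^ 2 ≤ b₁ ^ 2 + b₂ ^ 2 := by
      have : (b₁ * Real.cos θ + b₂ * Real.sin θ) ^ 2 + (b₁ * Real.sin θ - b₂ * Real.cos θ) ^ 2 =
          (b₁ ^ 2 + b₂ ^ 2) * (Real.sin θ ^ 2 + Real.cos θ ^ 2) := by ring
      rw [hcs, mul_one] at this
      nlinarith [sq_nonneg (b₁ * Real.sin θ - b₂ * Real.cos θ)]
    have h2 : b₁ * Real.cos θ + b₂ * Real.sin θ < a := by
      refine lt_of_pow_lt_pow_left₀ 2 ha.le ?_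
      linarith
    linarith
  have hw : (⟨b₁ / (a + D), b₂ / (a + D)⟩ : ℂ) ∈ ball (0 : ℂ) 1 := by
    rw [mem_ball_zero_iff]
    have : ‖(⟨b₁ / (a + D), b₂ / (a + D)⟩ : ℂ)‖ ^ 2 < 1 := by
      rw [← Complex.normSq_eq_norm_sq, Complex.normSq_apply]
      have : b₁ / (a + D) * (b₁ / (a + D)) + b₂ / (a + D) * (b₂ / (a + D)) =
          (b₁ ^ 2 + b₂ ^ 2) / (a + D) ^ 2 := by
        field_simp
      rw [this, div_lt_one (by positivity)]
      nlinarith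
    have h0 : 0 ≤ ‖(⟨b₁ / (a + D), b₂ / (a + D)⟩ : ℂ)‖ := norm_nonneg _
    nlinarith
  have key := (diffContOnCl_const (c := (1 : ℂ)) :
    DiffContOnCl ℂ (fun _ : ℂ => (1 : ℂ)) (ball (0 : ℂ) 1)).circleAverage_poissonKernel_smul' hw
  rw [Real.circleAverage_def] at key
  have hint : (∫ θ in (0 : ℝ)..(2 * Real.pi),
      ((‖circleMap 0 1 θ - 0‖ ^ 2 - ‖(⟨b₁ / (a + D), b₂ / (a + D)⟩ : ℂ) - 0‖ ^ 2) /
        ‖(circleMap 0 1 θ - 0) - ((⟨b₁ / (a + D), b₂ / (a + D)⟩ : ℂ) - 0)‖ ^ 2) • (1 : ℂ)) =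
      ((∫ θ in (0 : ℝ)..(2 * Real.pi), D / (a - b₁ * Real.cos θ - b₂ * Real.sin θ) : ℝ) : ℂ) := by
    rw [← intervalIntegral.integral_ofReal]
    refine intervalIntegral.integral_congr fun θ _ => ?_
    rw [ker_eq a b₁ b₂ D θ hD ha hD2 (hlt θ)]
    simp
  rw [hint] at key
  have key2 : (2 * Real.pi)⁻¹ *
      (∫ θ in (0 : ℝ)..(2 * Real.pi), D / (a - b₁ * Real.cos θ - b₂ * Real.sin θ)) = 1 := by
    have h := congrArg Complex.re key
    simpa using h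
  have hmul : (∫ θ in (0 : ℝ)..(2 * Real.pi), D / (a - b₁ * Real.cos θ - b₂ * Real.sin θ)) =
      D * ∫ θ in (0 : ℝ)..(2 * Real.pi), 1 / (a - b₁ * Real.cos θ - b₂ * Real.sin θ) := by
    rw [← intervalIntegral.integral_const_mul]
    refine intervalIntegral.integral_congr fun θ _ => ?_
    rw [mul_one_div]
  rw [hmul] at key2
  have hpi : (0 : ℝ) < 2 * Real.pi := by positivity
  rw [eq_div_iff hD.ne']
  field_simp at key2
  linarith

end Pool.Agent.H11.AR
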